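import Mathlib

/-!
# A balanced configuration `(15₃)` whose dimension differs from that of its dual
-/

set_option autoImplicit false

namespace Pool.Agent.Results.MP_d6bd81_co.DualDimension

open Module

/-- `I` is the incidence relation (point, line) of a balanced configuration `(n_k)`. -/
structure IsBalanced (n k : ℕ) (I : Fin n → Fin n → Prop) : Prop where
  two_le : 2 ≤ k
  point_degree : ∀ p, {l | I p l}.ncard = k
  line_degree : ∀ l, {p | I p l}.ncard = k
  linear : ∀ p q, p ≠ q → ∀ l m, I p l → I q l → I p m → I q m → l = m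

/-- A straight line of `ℝ^m`. -/
def IsStraightLine {m : ℕ} (s : AffineSubspace ℝ (EuclideanSpace ℝ (Fin m))) : Prop :=
  ∃ u v : EuclideanSpace ℝ (Fin m), u ≠ v ∧ s = affineSpan ℝ {u, v}

/-- A geometric realization in `ℝ^m`. -/
def IsRealization {P L : Type} (I : P → L → Prop) (m : ℕ) (f : P → EuclideanSpace ℝ (Fin m))
    (g : L → AffineSubspace ℝ (EuclideanSpace ℝ (Fin m))) : Prop :=
  Function.Injective f ∧ Function.Injective g ∧ (∀ l, IsStraightLine (g l)) ∧
    ∀ p l, f p ∈ g l ↔ I p l

/-- The dimensions of the affine hulls of the realizations. -/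
def dims {P L : Type} (I : P → L → Prop) : Set ℕ :=
  {d | ∃ (m : ℕ) (f : P → EuclideanSpace ℝ (Fin m))
    (g : L → AffineSubspace ℝ (EuclideanSpace ℝ (Fin m))), IsRealization I m f g ∧
    finrank ℝ (affineSpan ℝ (Set.range f)).direction = d}

/-- The dimension of a configuration: the largest dimension of the affine hull of a
realization. -/
noncomputable def dimConf {P L : Type} (I : P → L → Prop) : ℕ := sSup (dims I)

theorem dims_le {n : ℕ} {L : Type} (I : Fin (n + 1) → L → Prop) : ∀ d ∈ dims I, d ≤ n := by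
  rintro d ⟨m, f, g, -, rfl⟩
  rw [direction_affineSpan]
  exact finrank_vectorSpan_range_le ℝ f (by simp)

/-! ### The incidence table -/

/-- The points of the 15 lines. Points `0..2, 3..5, 6..8` are the points `a, b, c` of the Pappus
configuration without its line `c`, points `9..14` the vertices of a complete quadrilateral;
the last three lines are its diagonals, through the points `c`. -/
def tab : Fin 15 → List ℕ :=
  ![[0, 1, 2], [3, 4, 5], [0, 4, 8], [1, 3, 8], [0, 5, 7], [2, 3, 7], [1, 5, 6], [2, 4, 6],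
    [9, 10, 11], [9, 12, 13], [10, 12, 14], [11, 13, 14], [9, 14, 6], [10, 13, 7], [11, 12, 8]]

/-- The incidence relation. -/
def inc (p l : Fin 15) : Prop := (p : ℕ) ∈ tab l

instance : DecidableRel inc := fun p l => by unfold inc; infer_instance

theorem inc_balanced : IsBalanced 15 3 inc where
  two_le := by norm_num
  point_degree := by
    intro p
    rw [Set.ncard_eq_toFinset_card']
    revert p; decide
  line_degree := by
    intro l
    rw [Set.ncard_eq_toFinset_card']
    revert l; decide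
  linear := by decide

/-! ### Integer realizations -/

/-- Integer points as real points. -/
noncomputable def toR {m : ℕ} (u : Fin m → ℤ) : EuclideanSpace ℝ (Fin m) :=
  WithLp.toLp 2 (fun i => (u i : ℝ))

theorem toR_apply {m : ℕ} (u : Fin m → ℤ) (i : Fin m) : toR u i = (u i : ℝ) := rfl

theorem toR_inj {m : ℕ} : Function.Injective (toR (m := m)) := by
  intro u v h
  funext i
  have := congrArg (fun x : EuclideanSpace ℝ (Fin m) => x i) h
  simp only [toR_apply] at this
  exact_mod_cast this

theorem mem_line_iff {m : ℕ} {u v x : Fin m → ℤ} (huv : u ≠ v) :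
    toR x ∈ affineSpan ℝ {toR u, toR v} ↔
      ∀ i j, (x i - u i) * (v j - u j) = (x j - u j) * (v i - u i) := by
  rw [← vsub_vadd (toR x) (toR u), vadd_left_mem_affineSpan_pair]
  constructor
  · rintro ⟨r, hr⟩ i j
    have h : ∀ k, r * ((v k : ℝ) - u k) = (x k : ℝ) - u k := by
      intro k
      have := congrArg (fun y : EuclideanSpace ℝ (Fin m) => y k) hr
      simpa [toR_apply] using this
    have hi := h i
    have hj := h j
    have : ((x i : ℝ) - u i) * (v j - u j) = (x j - u j) * (v i - u i) := by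
      rw [← hi, ← hj]; ring
    exact_mod_cast this
  · intro h
    obtain ⟨k, hk⟩ : ∃ k, u k ≠ v k := by
      by_contra hno
      push Not at hno
      exact huv (funext hno)
    have hk' : (v k : ℝ) - u k ≠ 0 := by
      intro h0
      apply hk
      have : (v k : ℝ) = u k := by linarith
      exact_mod_cast this.symm
    refine ⟨((x k : ℝ) - u k) / (v k - u k), ?_⟩
    ext j
    have h1 : ((x k : ℝ) - u k) * (v j - u j) = (x j - u j) * (v k - u k) := by
      exact_mod_cast h k j
    simp only [vsub_eq_sub, PiLp.smul_apply, PiLp.sub_apply, toR_apply, smul_eq_mul]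
    rw [div_mul_eq_mul_div, div_eq_iff hk']
    exact h1

theorem realization_of_int {m : ℕ} (J : Fin 15 → Fin 15 → Prop) (c : Fin 15 → Fin m → ℤ)
    (e : Fin 15 → Fin 15 × Fin 15) (hc : Function.Injective c)
    (he : ∀ l, c (e l).1 ≠ c (e l).2)
    (hJ : ∀ p l, (∀ i j, (c p i - c (e l).1 i) * (c (e l).2 j - c (e l).1 j) =
      (c p j - c (e l).1 j) * (c (e l).2 i - c (e l).1 i)) ↔ J p l)
    (hinj : ∀ l l', (∀ p, J p l ↔ J p l') → l = l') :
    IsRealization J m (fun p => toR (c p))
      (fun l => affineSpan ℝ {toR (c (e l).1), toR (c (e l).2)}) := by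
  have hmem : ∀ p l, toR (c p) ∈ affineSpan ℝ {toR (c (e l).1), toR (c (e l).2)} ↔ J p l := by
    intro p l
    rw [mem_line_iff (he l)]
    exact hJ p l
  refine ⟨toR_inj.comp hc, ?_, ?_, hmem⟩
  · intro l l' h
    apply hinj
    intro p
    simp only at h
    rw [← hmem, ← hmem, h]
  · intro l
    exact ⟨_, _, fun h => he l (toR_inj h), rfl⟩

/-- Coordinates of the 15 points in space. -/
def cC : Fin 15 → Fin 3 → ℤ :=
  ![![0, 6, 0], ![-4, 6, 0], ![2, 6, 0], ![-2, 2, 0], ![-2, -6, 0], ![-2, 3, 0], ![0, 0, 0],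
    ![-4, 0, 0], ![-1, 0, 0], ![0, 0, 4], ![-4, 0, -2], ![-6, 0, -5], ![-3, 0, -2],
    ![-4, 0, -4], ![0, 0, -2]]

/-- Two points of each line. -/
def eC : Fin 15 → Fin 15 × Fin 15 :=
  ![(0, 1), (3, 4), (0, 4), (1, 3), (0, 5), (2, 3), (1, 5), (2, 4), (9, 10), (9, 12), (10, 12),
    (11, 13), (9, 14), (10, 13), (11, 12)]

/-- Coordinates of the 15 points of the dual in the plane. -/
def cD : Fin 15 → Fin 2 → ℤ :=
  ![![0, 0], ![-6, -12], ![0, -18], ![-4, -16], ![0, -12], ![-8, -8], ![-3, -12], ![-9, -9],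
    ![-9, -10], ![15, -24], ![-19, -10], ![-23, 4], ![-21, -3], ![-4, -10], ![-2, -17]]

/-- Two points of each line of the dual. -/
def eD : Fin 15 → Fin 15 × Fin 15 :=
  ![(0, 2), (0, 3), (0, 5), (1, 3), (1, 2), (1, 4), (6, 7), (4, 5), (2, 3), (8, 9), (8, 10),
    (8, 11), (9, 10), (9, 11), (10, 11)]

theorem realC : IsRealization inc 3 (fun p => toR (cC p))
    (fun l => affineSpan ℝ {toR (cC (eC l).1), toR (cC (eC l).2)}) :=
  realization_of_int inc cC eC (by decide +kernel) (by decide +kernel) (by decide +kernel)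
    (by decide +kernel)

theorem realD : IsRealization (fun l p => inc p l) 2 (fun p => toR (cD p))
    (fun l => affineSpan ℝ {toR (cD (eD l).1), toR (cD (eD l).2)}) :=
  realization_of_int (fun l p => inc p l) cD eD (by decide +kernel) (by decide +kernel)
    (by decide +kernel) (by decide +kernel)

/-- The realization in space spans space. -/
theorem three_mem : 3 ∈ dims inc := by
  refine ⟨3, _, _, realC, ?_⟩
  set f : Fin 15 → EuclideanSpace ℝ (Fin 3) := fun p => toR (cC p) with hf
  have hmem : ∀ p q, f p - f q ∈ (affineSpan ℝ (Set.range f)).direction := by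
    intro p q
    exact AffineSubspace.vsub_mem_direction (mem_affineSpan ℝ ⟨p, rfl⟩) (mem_affineSpan ℝ ⟨q, rfl⟩)
  have htop : (affineSpan ℝ (Set.range f)).direction = ⊤ := by
    rw [eq_top_iff]
    intro x _
    have hx : x = (-(x 0) / 4) • (f 7 - f 6) + (x 1 / 6) • (f 0 - f 6) +
        (x 2 / 4) • (f 9 - f 6) := by
      ext i
      simp only [hf, PiLp.add_apply, PiLp.smul_apply, PiLp.sub_apply, toR_apply, smul_eq_mul]
      fin_cases i <;> simp [cC]
    rw [hx]
    exact Submodule.add_mem _ (Submodule.add_mem _ (Submodule.smul_mem _ _ (hmem _ _))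
      (Submodule.smul_mem _ _ (hmem _ _))) (Submodule.smul_mem _ _ (hmem _ _))
  rw [htop, finrank_top, finrank_euclideanSpace_fin]

/-! ### The upper bound for the dual -/

section upper

variable {m : ℕ}

theorem param {s : AffineSubspace ℝ (EuclideanSpace ℝ (Fin m))} (hs : IsStraightLine s)
    {P Q R : EuclideanSpace ℝ (Fin m)} (hPQ : P ≠ Q) (hP : P ∈ s) (hQ : Q ∈ s) (hR : R ∈ s) :
    ∃ c : ℝ, R - P = c • (Q - P) := by
  obtain ⟨u, v, huv, rfl⟩ := hs
  rw [← vsub_vadd P u, vadd_left_mem_affineSpan_pair] at hP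
  rw [← vsub_vadd Q u, vadd_left_mem_affineSpan_pair] at hQ
  rw [← vsub_vadd R u, vadd_left_mem_affineSpan_pair] at hR
  obtain ⟨a, ha⟩ := hP
  obtain ⟨b, hb⟩ := hQ
  obtain ⟨c, hc⟩ := hR
  simp only [vsub_eq_sub] at ha hb hc
  have hab : b - a ≠ 0 := by
    intro h
    apply hPQ
    have : b = a := by linarith
    rw [this] at hb
    have h2 : P - u = Q - u := ha.symm.trans hb
    simpa using h2
  refine ⟨(c - a) / (b - a), ?_⟩
  have e1 : R - P = (c - a) • (v - u) := by
    rw [sub_smul, hc, ha]; abel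
  have e2 : Q - P = (b - a) • (v - u) := by
    rw [sub_smul, hb, ha]; abel
  rw [e1, e2, smul_smul, div_mul_cancel₀ _ hab]

theorem closure {s : AffineSubspace ℝ (EuclideanSpace ℝ (Fin m))} (hs : IsStraightLine s)
    (S : AffineSubspace ℝ (EuclideanSpace ℝ (Fin m)))
    {P Q R : EuclideanSpace ℝ (Fin m)} (hPQ : P ≠ Q) (hP : P ∈ s) (hQ : Q ∈ s) (hR : R ∈ s)
    (hPS : P ∈ S) (hQS : Q ∈ S) : R ∈ S := by
  obtain ⟨c, hc⟩ := param hs hPQ hP hQ hR
  have h1 : R = c • (Q -ᵥ P) +ᵥ P := by
    rw [vsub_eq_sub, vadd_eq_add, ← hc]; abel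
  rw [h1]
  exact S.smul_vsub_vadd_mem c hQS hPS hPS

/-- Fano's axiom holds over the reals: if the three diagonal points of a complete quadrangle lie
in the affine subspace `S`, then so does the first vertex. -/
theorem fano (S : AffineSubspace ℝ (EuclideanSpace ℝ (Fin m)))
    {v1 v2 v3 v4 d1 d2 d3 : EuclideanSpace ℝ (Fin m)} {s1 t1 s2 t2 s3 t3 : ℝ}
    (h1 : d1 - v1 = s1 • (v2 - v1)) (h1' : d1 - v3 = t1 • (v4 - v3))
    (h2 : d2 - v1 = s2 • (v3 - v1)) (h2' : d2 - v2 = t2 • (v4 - v2))
    (h3 : d3 - v1 = s3 • (v4 - v1)) (h3' : d3 - v2 = t3 • (v3 - v2))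
    (hind : ∀ a b : ℝ, a • (v2 - v1) + b • (v3 - v1) = 0 → a = 0 ∧ b = 0)
    (hncol : ∀ c : ℝ, v4 - v2 ≠ c • (v3 - v2))
    (hd1 : d1 ∈ S) (hd2 : d2 ∈ S) (hd3 : d3 ∈ S) : v1 ∈ S := by
  set e2 := v2 - v1 with he2
  set e3 := v3 - v1 with he3
  set e4 := v4 - v1 with he4
  have k3 : s3 • e4 = (1 - t3) • e2 + t3 • e3 := by
    have e : d3 - v1 = (d3 - v2) + e2 := by rw [he2]; abel
    rw [← h3, e, h3', show v3 - v2 = e3 - e2 by rw [he2, he3]; abel]
    module
  have hs3 : s3 ≠ 0 := by
    intro h0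
    rw [h0, zero_smul] at k3
    obtain ⟨a1, a2⟩ := hind _ _ k3.symm
    linarith
  set x := (1 - t3) / s3 with hx
  set y := t3 / s3 with hy
  have hsx : s3 * x = 1 - t3 := by rw [hx]; field_simp
  have hsy : s3 * y = t3 := by rw [hy]; field_simp
  have k4 : e4 = x • e2 + y • e3 := by
    have : s3 • e4 = s3 • (x • e2 + y • e3) := by
      rw [k3, smul_add, smul_smul, smul_smul, hsx, hsy]
    exact smul_right_injective _ hs3 this
  have k1 : s1 • e2 = e3 + t1 • (e4 - e3) := by
    have e : d1 - v1 = (d1 - v3) + e3 := by rw [he3]; abel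
    rw [← h1, e, h1', show v4 - v3 = e4 - e3 by rw [he4, he3]; abel]
    abel
  have k2 : s2 • e3 = e2 + t2 • (e4 - e2) := by
    have e : d2 - v1 = (d2 - v2) + e2 := by rw [he2]; abel
    rw [← h2, e, h2', show v4 - v2 = e4 - e2 by rw [he4, he2]; abel]
    abel
  rw [k4] at k1 k2
  obtain ⟨a1, a2⟩ := hind (s1 - t1 * x) (-1 - t1 * y + t1) (by
    have : (s1 - t1 * x) • e2 + (-1 - t1 * y + t1) • e3 =
        s1 • e2 - (e3 + t1 • (x • e2 + y • e3 - e3)) := by module
    rw [this, k1, sub_self])
  obtain ⟨b1, b2⟩ := hind (-1 - t2 * x + t2) (s2 - t2 * y) (by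
    have : (-1 - t2 * x + t2) • e2 + (s2 - t2 * y) • e3 =
        s2 • e3 - (e2 + t2 • (x • e2 + y • e3 - e2)) := by module
    rw [this, k2, sub_self])
  have hxy : 1 - x - y ≠ 0 := by
    intro h0
    apply hncol y
    have hx' : x = 1 - y := by linarith
    have : v4 - v2 = e4 - e2 := by rw [he4, he2]; abel
    rw [this, k4, hx', show v3 - v2 = e3 - e2 by rw [he3, he2]; abel]
    module
  -- the affine combination
  have key : v1 = ((1 - x) / (2 * (1 - x - y))) • (d2 - d1) +
      (-(x + y) / (2 * (1 - x - y))) • (d3 - d1) + d1 := by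
    have hD1 : d1 = s1 • e2 + v1 := by rw [← h1]; abel
    have hD2 : d2 = s2 • e3 + v1 := by rw [← h2]; abel
    have hD3 : d3 = s3 • (x • e2 + y • e3) + v1 := by rw [← k4, ← h3]; abel
    have c1 : (1 - y) * s1 = x := by
      have : t1 * (1 - y) = 1 := by linarith
      have hs : s1 = t1 * x := by linarith
      rw [hs]; linear_combination x * this
    have c2 : (1 - x) * s2 = y := by
      have : t2 * (1 - x) = 1 := by linarith
      have hs : s2 = t2 * y := by linarith
      rw [hs]; linear_combination y * this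
    have c3 : s3 * (x + y) = 1 := by rw [mul_add, hsx, hsy]; ring
    have hw : (2 * (1 - x - y)) ≠ 0 := mul_ne_zero two_ne_zero hxy
    have g1 : ((1 - x) / (2 * (1 - x - y))) • (d2 - d1) +
      (-(x + y) / (2 * (1 - x - y))) • (d3 - d1) + d1 =
      (((2 * (1 - x - y)) - (1 - x) + (x + y)) * s1 - (s3 * (x + y)) * x) •
        ((2 * (1 - x - y))⁻¹ • e2) +
      ((1 - x) * s2 - (s3 * (x + y)) * y) • ((2 * (1 - x - y))⁻¹ • e3) + v1 := by
      rw [hD1, hD2, hD3]
      match_scalars <;> field_simp <;> ring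
    rw [g1, c3, c2, show ((2 * (1 - x - y)) - (1 - x) + (x + y)) * s1 = x by
      rw [← c1]; ring]
    simp
  rw [key]
  have hmem : ((1 - x) / (2 * (1 - x - y))) • (d2 - d1) +
      (-(x + y) / (2 * (1 - x - y))) • (d3 - d1) ∈ S.direction :=
    Submodule.add_mem _ (Submodule.smul_mem _ _ (AffineSubspace.vsub_mem_direction hd2 hd1))
      (Submodule.smul_mem _ _ (AffineSubspace.vsub_mem_direction hd3 hd1))
  exact AffineSubspace.vadd_mem_of_mem_direction hmem hd1

theorem dual_le (f : Fin 15 → EuclideanSpace ℝ (Fin m))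
    (g : Fin 15 → AffineSubspace ℝ (EuclideanSpace ℝ (Fin m)))
    (h : IsRealization (fun l p => inc p l) m f g) :
    finrank ℝ (affineSpan ℝ (Set.range f)).direction ≤ 2 := by
  obtain ⟨hf, -, hline, hinc⟩ := h
  have hin : ∀ {l p : Fin 15}, inc p l → f l ∈ g p := fun {l p} h => (hinc l p).mpr h
  have hne : ∀ {i j : Fin 15}, i ≠ j → f i ≠ f j := fun h h' => h (hf h')
  set S : AffineSubspace ℝ (EuclideanSpace ℝ (Fin m)) := affineSpan ℝ (Set.range ![f 0, f 1, f 2])
    with hS
  -- closing lines: `cl p i j k` for points `i j k` of the dual line `p`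
  have cl : ∀ (p i j k : Fin 15), i ≠ j → inc p i → inc p j → inc p k → f i ∈ S → f j ∈ S →
      f k ∈ S := fun p i j k hij hi hj hk hiS hjS =>
    closure (hline p) S (hne hij) (hin hi) (hin hj) (hin hk) hiS hjS
  have m0 : f 0 ∈ S := mem_affineSpan ℝ ⟨0, rfl⟩
  have m1 : f 1 ∈ S := mem_affineSpan ℝ ⟨1, rfl⟩
  have m2 : f 2 ∈ S := mem_affineSpan ℝ ⟨2, rfl⟩
  have m4 : f 4 ∈ S := cl 0 0 2 4 (by decide) (by decide) (by decide) (by decide) m0 m2
  have m7 : f 7 ∈ S := cl 4 1 2 7 (by decide) (by decide) (by decide) (by decide) m1 m2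
  have m6 : f 6 ∈ S := cl 5 1 4 6 (by decide) (by decide) (by decide) (by decide) m1 m4
  have m5 : f 5 ∈ S := cl 2 0 7 5 (by decide) (by decide) (by decide) (by decide) m0 m7
  have m3 : f 3 ∈ S := cl 1 0 6 3 (by decide) (by decide) (by decide) (by decide) m0 m6
  have m12 : f 12 ∈ S := cl 6 6 7 12 (by decide) (by decide) (by decide) (by decide) m6 m7
  have m13 : f 13 ∈ S := cl 7 4 5 13 (by decide) (by decide) (by decide) (by decide) m4 m5
  have m14 : f 14 ∈ S := cl 8 2 3 14 (by decide) (by decide) (by decide) (by decide) m2 m3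
  -- the quadrangle `8, 9, 10, 11`
  have pr : ∀ (p i j k : Fin 15), i ≠ j → inc p i → inc p j → inc p k →
      ∃ c : ℝ, f k - f i = c • (f j - f i) := fun p i j k hij hi hj hk =>
    param (hline p) (hne hij) (hin hi) (hin hj) (hin hk)
  have npr : ∀ (p i j k : Fin 15), i ≠ j → inc p i → inc p j → ¬ inc p k →
      ∀ c : ℝ, f k - f i ≠ c • (f j - f i) := by
    intro p i j k hij hi hj hk c hc
    apply hk
    apply (hinc k p).mp
    have h1 : f k = c • (f j -ᵥ f i) +ᵥ f i := by
      rw [vsub_eq_sub, vadd_eq_add, ← hc]; abel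
    show f k ∈ g p
    rw [h1]
    exact (g p).smul_vsub_vadd_mem c (hin hj) (hin hi) (hin hi)
  obtain ⟨s1, h1⟩ := pr 9 8 9 12 (by decide) (by decide) (by decide) (by decide)
  obtain ⟨t1, h1'⟩ := pr 14 10 11 12 (by decide) (by decide) (by decide) (by decide)
  obtain ⟨s2, h2⟩ := pr 10 8 10 13 (by decide) (by decide) (by decide) (by decide)
  obtain ⟨t2, h2'⟩ := pr 13 9 11 13 (by decide) (by decide) (by decide) (by decide)
  obtain ⟨s3, h3⟩ := pr 11 8 11 14 (by decide) (by decide) (by decide) (by decide)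
  obtain ⟨t3, h3'⟩ := pr 12 9 10 14 (by decide) (by decide) (by decide) (by decide)
  have m8 : f 8 ∈ S := by
    refine fano S h1 h1' h2 h2' h3 h3' ?_ ?_ m12 m13 m14
    · intro a b hab
      have hb : b = 0 := by
        by_contra hb
        apply npr 9 8 9 10 (by decide) (by decide) (by decide) (by decide) (-(a / b))
        have h5 : b • (f 10 - f 8) = (-a) • (f 9 - f 8) := by
          rw [neg_smul]; exact eq_neg_of_add_eq_zero_right hab
        have h6 : f 10 - f 8 = b⁻¹ • (b • (f 10 - f 8)) := by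
          rw [smul_smul, inv_mul_cancel₀ hb, one_smul]
        rw [h6, h5, smul_smul]
        congr 1
        field_simp
      refine ⟨?_, hb⟩
      rw [hb, zero_smul, add_zero, smul_eq_zero] at hab
      rcases hab with h | h
      · exact h
      · exact absurd (sub_eq_zero.mp h) (hne (by decide))
    · exact npr 12 9 10 11 (by decide) (by decide) (by decide) (by decide)
  have m9 : f 9 ∈ S := cl 9 8 12 9 (by decide) (by decide) (by decide) (by decide) m8 m12
  have m10 : f 10 ∈ S := cl 10 8 13 10 (by decide) (by decide) (by decide) (by decide) m8 m13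
  have m11 : f 11 ∈ S := cl 11 8 14 11 (by decide) (by decide) (by decide) (by decide) m8 m14
  have hall : ∀ i, f i ∈ S := by
    intro i
    fin_cases i
    · exact m0
    · exact m1
    · exact m2
    · exact m3
    · exact m4
    · exact m5
    · exact m6
    · exact m7
    · exact m8
    · exact m9
    · exact m10
    · exact m11
    · exact m12
    · exact m13
    · exact m14
  have hle : affineSpan ℝ (Set.range f) ≤ S := by
    rw [affineSpan_le]
    rintro _ ⟨i, rfl⟩
    exact hall i
  have hdir := AffineSubspace.direction_le hle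
  have hfin : finrank ℝ S.direction ≤ 2 := by
    rw [hS, direction_affineSpan]
    exact finrank_vectorSpan_range_le ℝ _ (by simp)
  exact (Submodule.finrank_mono hdir).trans hfin

end upper

/-- There is a balanced configuration `(15₃)` which has a geometric realization, as does its dual,
and which has dimension at least `3` while its dual has dimension at most `2`. -/
theorem result : ∃ I : Fin 15 → Fin 15 → Prop, IsBalanced 15 3 I ∧
    (dims I).Nonempty ∧ (dims (fun l p => I p l)).Nonempty ∧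
    BddAbove (dims I) ∧ BddAbove (dims (fun l p => I p l)) ∧
    3 ≤ dimConf I ∧ dimConf (fun l p => I p l) ≤ 2 ∧
    dimConf I ≠ dimConf (fun l p => I p l) := by
  have hb1 : BddAbove (dims inc) := ⟨14, fun d hd => dims_le (n := 14) inc d hd⟩
  have hb2 : BddAbove (dims (fun l p => inc p l)) :=
    ⟨14, fun d hd => dims_le (n := 14) (fun l p => inc p l) d hd⟩
  have hne2 : (dims (fun l p => inc p l)).Nonempty := ⟨_, 2, _, _, realD, rfl⟩
  have h1 : 3 ≤ dimConf inc := le_csSup hb1 three_mem
  have h2 : dimConf (fun l p => inc p l) ≤ 2 := by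
    apply csSup_le hne2
    rintro d ⟨m, f, g, h, rfl⟩
    exact dual_le f g h
  exact ⟨inc, inc_balanced, ⟨3, three_mem⟩, hne2, hb1, hb2, h1, h2, by omega⟩

end Pool.Agent.Results.MP_d6bd81_co.DualDimension
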